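import Pool.Agent.V5helper50.SP.Stm

/-!
# Project SC: counting sums of `l` perturbed `k`-th powers (MP_4e3e45_nt)

THEOREM. Let `k ≥ 2`. For almost all `α ∈ ℝ ^ (k-1)` for all `q ≥ 1`, with `a(x) = x ^ k + q ⌊∑ α_j x ^ j⌋`: for `1 ≤ l < k`
more than `c x ^ (l/k)` positive integers `n ≤ x` are sums of `l` numbers `a(y)`, and more than `c x / (log x) ^ 3` are sums
of `k` numbers `a(y)`.

All jobs are independent (hypotheses `S_...` where listed). Constants are free. `a, cube, blk, box, S_WC, S_PR` of project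
MT are in `V5helper51.MT.Stm`.
-/

set_option autoImplicit false

open Finset MeasureTheory

namespace Pool.Agent.V5helper50.SC

open Pool.Agent.V5helper51.MT (a cube box)

open scoped Classical in
/-- **CNT** (150 lines, uses `MT.S_WC`; adapt `V5helper6.MT.CNT`, which is the case `l = k`). Proof. If `D ≥ P ^ k`: the box has
`(P+1)^l ≤ 2^l P^l` elements. Otherwise `P ^ (k-l+r) ≤ D < P ^ (k-l+r+1)`, `r ≤ l - 1`. Fix the first `r` coordinates (at most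
`(2 P) ^ r` ways). Two solutions with the same first `r` coordinates: WC with `(k-l+r, l-r, r)`, `j = k-l+r+1..k`, gives
`|x_i - x'_i| ≤ C' D / P ^ (k-l+r)`, so the coordinate `x_r` takes at most `C'' D / P ^ (k-l+r)` values. Fix it too; WC
with `(k-l+r+1, l-r-1, r+1)` gives `|x_i - x'_i| ≤ C' D / P ^ (k-l+r+1) ≤ C'` for the others: boundedly many. -/
def S_CNT : Prop := ∀ k l : ℕ, 1 ≤ l → l ≤ k → ∃ C : ℝ, 0 < C ∧ ∀ P : ℕ, 1 ≤ P → ∀ D : ℝ, (P : ℝ) ^ (k - l) ≤ D →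
  ∀ c : ℕ → ℝ, (((box l P).filter fun x : Fin l → ℕ => ∀ j ∈ Icc 1 k, |∑ i, (x i : ℝ) ^ j - c j| ≤ D).card : ℝ) ≤
    C * (D / (P : ℝ) ^ (k - l))

/-- **SEP** (40 lines, uses `MT.S_WC`). Proof. WC with `(k - l, l, 0)`: for some `i` `1 ≤ |x_i - y_i| ≤ C ∑_j |h_j| / P^(j-1)
≤ C l D / P^(k-l)`. -/
def S_SEP : Prop := ∀ k l : ℕ, 1 ≤ l → l ≤ k → ∃ c : ℝ, 0 < c ∧ ∀ P : ℕ, 1 ≤ P → ∀ x ∈ box l P, ∀ y ∈ box l P, x ≠ y →
  ∀ D : ℝ, (∀ j ∈ Icc 1 k, |∑ i, (x i : ℝ) ^ j - ∑ i, (y i : ℝ) ^ j| ≤ D) → c * (P : ℝ) ^ (k - l) ≤ D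

/-- **MV** (180 lines, uses S_CNT, S_SEP, `MT.S_PR`; adapt `V5helper62.MT.MV`). Proof. As there: if the sums are equal then
`|h_k / q + ∑ α_j h_j| ≤ k`, so the measure is at most `C / D`, `D = max 1 max_{j<k} |h_j|`, and `0` unless `|h_k| ≤ C₁ D`. By SEP
(for `x ≠ y`) `D ≥ c P^(k-l)`; for `2^i ≤ D < 2^(i+1)` the number of the pairs is at most
`(2 P)^l C 2^(i+1) / P^(k-l)` (CNT with `D := max (C₁ 2^(i+1)) P^(k-l)`), so they contribute `≤ C P^(2l-k)`; `≤ C log P` indices `i`. -/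
def S_MV : Prop := ∀ k q A l : ℕ, 2 ≤ k → 1 ≤ q → 1 ≤ A → 1 ≤ l → l < k → ∃ C : ℝ, 0 < C ∧ ∀ P : ℕ, 2 ≤ P →
  ∑ x ∈ box l P, ∑ y ∈ (box l P).filter (fun y => y ≠ x), volume.real {α : Fin (k - 1) → ℝ | α ∈ cube k A ∧
    ∑ i, a k q α (x i) = ∑ i, a k q α (y i)} ≤ C * ((P : ℝ) ^ (2 * l) / (P : ℝ) ^ k) * Real.log P

/-- **AE** (120 lines, uses S_MV; adapt `V5helper70.MT.AE`). Proof. With `P = 2 ^ m` the measure of the `α ∈ cube k A` for which the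
number of pairs `x ≠ y` exceeds `P ^ l` is at most `C P^(l-k) log P ≤ C m / 2^m` (Markov); Borel-Cantelli; the diagonal has
`(P+1)^l` elements. -/
def S_AE : Prop := ∀ k l : ℕ, 2 ≤ k → 1 ≤ l → l < k → ∀ᵐ α : Fin (k - 1) → ℝ, ∀ q : ℕ, 1 ≤ q → ∃ m₀ : ℕ, ∀ m ≥ m₀,
  (((box l (2 ^ m) ×ˢ box l (2 ^ m)).filter fun p : (Fin l → ℕ) × (Fin l → ℕ) =>
    ∑ i, a k q α (p.1 i) = ∑ i, a k q α (p.2 i)).card : ℝ) ≤ 2 * ((2 : ℝ) ^ m + 1) ^ l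

/-- the number of the positive integers up to `x` which are sums of `l` perturbed powers -/
noncomputable def num (k q l : ℕ) (α : Fin (k - 1) → ℝ) (x : ℝ) : ℕ :=
  {n : ℕ | 1 ≤ n ∧ (n : ℝ) ≤ x ∧ ∃ y : Fin l → ℕ, ∑ i, a k q α (y i) = n}.ncard

/-- **CS** (150 lines, uses `SP.S_GRW`). Cauchy-Schwarz. Proof. Let `B = 2 l (2 l + 1)^k` and `P = 2^m` with
`B P^k ≤ x < B (2 P)^k`, `x` large. All sums over the box are positive and at most `l · 2 ((2 l + 1) P)^k ≤ x`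
(`x^k / 2 ≤ a(x) ≤ 2 x^k` for large `x`). If `r(n)` is the number of the `y` in the box with sum `n`:
`(P^l)^2 ≤ (∑ r(n))^2 ≤ num · ∑ r(n)^2 ≤ num · K P^l (m+1)^s`, `m + 1 ≤ 2 log x`. -/
def S_CS : Prop := ∀ k q l s : ℕ, 2 ≤ k → 1 ≤ q → 1 ≤ l → l ≤ k → ∀ (α : Fin (k - 1) → ℝ) (K : ℝ), 0 < K →
  (∃ m₀ : ℕ, ∀ m ≥ m₀, (((box l (2 ^ m) ×ˢ box l (2 ^ m)).filter fun p : (Fin l → ℕ) × (Fin l → ℕ) =>
    ∑ i, a k q α (p.1 i) = ∑ i, a k q α (p.2 i)).card : ℝ) ≤ K * ((2 : ℝ) ^ m) ^ l * ((m : ℝ) + 1) ^ s) →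
  ∃ c : ℝ, 0 < c ∧ ∃ x₀ : ℝ, ∀ x : ℝ, x₀ ≤ x →
    c * x ^ ((l : ℝ) / k) / (Real.log x) ^ s < (num k q l α x : ℝ)

end Pool.Agent.V5helper50.SC
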